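import Pool.Agent.Lib.MP_5d4057_al.Comb.Main

namespace Pool.Agent.Results.MP_5d4057_al.CombinationInjective

open Pool.Agent.Lib.MP_5d4057_al Pool.Agent.Lib.MP_5d4057_al.Hyb
open Pool.Agent.Lib.MP_5d4057_al.Comb

/-- The hybrid of two congruence subgroups of deep enough level is the amalgamated product of the two
pieces, at every angle, and neither it nor any of its subgroups is a lattice. -/
theorem result (k : ℕ) (hk : 1 ≤ k) (Γ₃ : Subgroup (SUGroup k)) (h₃ : IsLattice Γ₃)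
    (K : Subfield ℂ) (hd : 2 < Module.finrank ℚ K)
    (H : Fin 2 → Matrix (Fin (k + 1 + 1)) (Fin (k + 1 + 1)) K)
    (B : Fin 2 → Matrix (Fin (k + 1 + 1)) (Fin (k + 1 + 1)) ℂ)
    (hf : ∀ b, IsForm (k + 1) K (H b) (B b))
    (hr : ∀ b, ∀ γ ∈ Γ₃, EntriesIn K (B b) (extend k γ).toMatrix) :
    ∃ c : ℕ, 1 ≤ c ∧ (Split B → c = 1) ∧
      ∀ (n : ℕ) (g : Fin 2 → SUGroup (k + 2)), Agree Γ₃ g →
        4 < ((n : ℝ) / 2) ^ Module.finrank ℚ K * (1 - cosAngle g) ^ 2 →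
        ∀ Λ : Fin 2 → Subgroup (SUGroup (k + 1)), (∀ b, Λ b ≤ level (k + 1) K (B b) (c * n)) →
          NoLattice (hybrid Λ g) ∧ Embeds Λ g :=
  main k hk Γ₃ h₃ K hd H B hf hr

end Pool.Agent.Results.MP_5d4057_al.CombinationInjective
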